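import Mathlib

/-!
# MP_f00063_lc : the middle coefficient is not determined

We disprove Q1: there is a nonprincipal ultrafilter `U` on the positive integers with
`U ⊕ U ⊕ 2U = U ⊕ 2U ⊕ 2U`. Any idempotent `U` (`U ⊕ U = U`) will do, since then also
`2U ⊕ 2U = 2U`, so both sides equal `U ⊕ 2U`.
-/

set_option autoImplicit false

namespace Pool.Agent.Results.MP_f00063_lc.MiddleCoefficient

/-- The sum `U ⊕ V` of two ultrafilters on the positive integers; see `mem_oplus`. -/
def oplus (U V : Ultrafilter ℕ+) : Ultrafilter ℕ+ :=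
  U.bind fun m => V.map fun n => m + n

/-- The multiple `a U`, i.e. the image of `U` under `n ↦ a n`; see `mem_times`. -/
def times (a : ℕ+) (U : Ultrafilter ℕ+) : Ultrafilter ℕ+ :=
  U.map fun n => a * n

/-- `oplus` is the sum of the problem file. -/
theorem mem_oplus (U V : Ultrafilter ℕ+) (A : Set ℕ+) :
    A ∈ oplus U V ↔ {m : ℕ+ | {n : ℕ+ | m + n ∈ A} ∈ V} ∈ U := Iff.rfl

/-- `times` is the multiple of the problem file. -/
theorem mem_times (a : ℕ+) (U : Ultrafilter ℕ+) (A : Set ℕ+) :
    A ∈ times a U ↔ {n : ℕ+ | a * n ∈ A} ∈ U := Iff.rfl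

theorem oplus_assoc (U V W : Ultrafilter ℕ+) :
    oplus (oplus U V) W = oplus U (oplus V W) := by
  apply Ultrafilter.ext
  intro A
  simp only [mem_oplus, Set.mem_setOf_eq, add_assoc]

theorem times_oplus (a : ℕ+) (U V : Ultrafilter ℕ+) :
    times a (oplus U V) = oplus (times a U) (times a V) := by
  apply Ultrafilter.ext
  intro A
  simp only [mem_oplus, mem_times, Set.mem_setOf_eq, mul_add]

/-- There is an idempotent ultrafilter on the positive integers. -/
theorem exists_idempotent : ∃ U : Ultrafilter ℕ+, oplus U U = U := by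
  letI := Ultrafilter.addSemigroup (M := ℕ+)
  obtain ⟨U, hU⟩ := exists_idempotent_of_compact_t2_of_continuous_add_left
    (M := Ultrafilter ℕ+) Ultrafilter.continuous_add_left
  refine ⟨U, ?_⟩
  apply Ultrafilter.ext
  intro A
  conv_rhs => rw [← hU]
  exact Iff.rfl

/-- An idempotent ultrafilter is nonprincipal. -/
theorem ne_pure_of_idempotent {U : Ultrafilter ℕ+} (hU : oplus U U = U) (n : ℕ+) :
    U ≠ (pure n : Ultrafilter ℕ+) := by
  rintro rfl
  have h : ({n} : Set ℕ+) ∈ oplus (pure n : Ultrafilter ℕ+) (pure n) := by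
    rw [hU]
    exact Set.mem_singleton n
  rw [mem_oplus] at h
  have h2 : n + n ∈ ({n} : Set ℕ+) := h
  have h3 : n + n = n := h2
  have h4 := congrArg PNat.val h3
  have h5 := n.pos
  rw [PNat.add_coe] at h4
  omega

/-- The implication of Q1 fails: there are a nonprincipal ultrafilter `U` on the positive
integers and positive integers `a, b, b', c` with `b ≠ b'` and
`aU ⊕ bU ⊕ cU = aU ⊕ b'U ⊕ cU`. -/
theorem result : ∃ U : Ultrafilter ℕ+, (∀ n : ℕ+, U ≠ (pure n : Ultrafilter ℕ+)) ∧
    ∃ a b b' c : ℕ+, b ≠ b' ∧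
      oplus (oplus (times a U) (times b U)) (times c U)
        = oplus (oplus (times a U) (times b' U)) (times c U) := by
  obtain ⟨U, hU⟩ := exists_idempotent
  refine ⟨U, ne_pure_of_idempotent hU, 1, 1, 2, 2, by decide, ?_⟩
  have h1 : times 1 U = U := by
    apply Ultrafilter.ext
    intro A
    simp only [mem_times, one_mul]
    exact Iff.rfl
  rw [h1, hU, oplus_assoc, ← times_oplus, hU]

end Pool.Agent.Results.MP_f00063_lc.MiddleCoefficient
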